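import Pool.Agent.H66.L.S8.Y504.CO.Stm

/-!
# Coded periodic orbits near a transverse homoclinic orbit (helper504, helper614)
-/

set_option autoImplicit false

open scoped ContDiff Topology
open Filter Set Metric

namespace Pool.Agent.Y614.CO.HS

open Pool.Agent.Y504.CO

section per

variable {α : Type*} {Q : ℕ} [NeZero Q]

lemma per {g : ℤ → α} (hg : Function.Periodic g (Q : ℤ)) (i : ℤ) :
    g (((i : ZMod Q).val : ℤ)) = g i := by
  rw [ZMod.val_intCast, Int.emod_def, mul_comm]
  have := hg.sub_zsmul_eq (x := i) (i / Q)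
  rwa [smul_eq_mul] at this

end per

/-- shadowing of a periodic pseudo-orbit -/
theorem shadow (hNW : S_NW) {E : Type} [NormedAddCommGroup E] [NormedSpace ℝ E]
    [FiniteDimensional ℝ E] {Q : ℕ} [NeZero Q] {y : ℤ → E} {f : ℤ → E → E}
    (hy : Function.Periodic y (Q : ℤ)) (hf : Function.Periodic f (Q : ℤ))
    {c r : ℝ} (hc : 0 < c) (hr : 0 < r)
    (h1 : ∀ i, ‖y (i + 1) - f i (y i)‖ ≤ c / 2 * r)
    (h2 : ∀ v : ℤ → E, (∃ C : ℝ, ∀ i, ‖v i‖ ≤ C) → ∀ δ : ℝ,
        (∀ i, ‖v (i + 1) - fderiv ℝ (f i) (y i) (v i)‖ ≤ δ) → ∀ i, c * ‖v i‖ ≤ δ)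
    (h3 : ∀ i x, ‖x - y i‖ ≤ r → DifferentiableAt ℝ (f i) x ∧
      ‖fderiv ℝ (f i) x - fderiv ℝ (f i) (y i)‖ ≤ c / 2) :
    ∃ x : ℤ → E, (∀ i, x (i + Q) = x i) ∧ (∀ i, x (i + 1) = f i (x i)) ∧
      ∀ i, ‖x i - y i‖ ≤ r := by
  let Y : ZMod Q → E := fun k => y (k.val : ℤ)
  let F : (ZMod Q → E) → (ZMod Q → E) := fun x k => x (k + 1) - f (k.val : ℤ) (x k)
  let F' : (ZMod Q → E) → (ZMod Q → E) →L[ℝ] (ZMod Q → E) := fun x =>
    ContinuousLinearMap.pi fun k => ContinuousLinearMap.proj (R := ℝ) (φ := fun _ : ZMod Q => E) (k + 1) -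
      (fderiv ℝ (f (k.val : ℤ)) (x k)).comp
        (ContinuousLinearMap.proj (R := ℝ) (φ := fun _ : ZMod Q => E) k)
  have hY : ∀ i : ℤ, Y (i : ZMod Q) = y i := fun i => per hy i
  have hfp : ∀ i : ℤ, f (((i : ZMod Q).val : ℤ)) = f i := fun i => per hf i
  have hF' : ∀ (x v : ZMod Q → E) (k : ZMod Q),
      F' x v k = v (k + 1) - fderiv ℝ (f (k.val : ℤ)) (x k) (v k) := by
    intro x v k
    rfl
  have hval : ∀ k : ZMod Q, ∃ i : ℤ, (i : ZMod Q) = k := fun k => ZMod.intCast_surjective k
  have hdiff : ∀ x ∈ closedBall Y r, HasFDerivAt F (F' x) x := by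
    intro x hx
    rw [hasFDerivAt_pi]
    intro k
    have hxk : ‖x k - y (k.val : ℤ)‖ ≤ r := by
      have := norm_le_pi_norm (x - Y) k
      rw [mem_closedBall, dist_eq_norm] at hx
      exact this.trans hx
    have hd := (h3 _ _ hxk).1.hasFDerivAt
    have e1 : HasFDerivAt (fun x : ZMod Q → E => x (k + 1))
        (ContinuousLinearMap.proj (R := ℝ) (φ := fun _ : ZMod Q => E) (k + 1)) x :=
      (ContinuousLinearMap.proj (R := ℝ) (φ := fun _ : ZMod Q => E) (k + 1)).hasFDerivAt
    have e2 : HasFDerivAt (fun x : ZMod Q → E => x k)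
        (ContinuousLinearMap.proj (R := ℝ) (φ := fun _ : ZMod Q => E) k) x :=
      (ContinuousLinearMap.proj (R := ℝ) (φ := fun _ : ZMod Q => E) k).hasFDerivAt
    exact e1.sub (hd.comp x e2)
  obtain ⟨x, hx, hFx⟩ := hNW (ZMod Q → E) (ZMod Q → E) rfl F F' Y (F' Y) c r hc hr
    (by
      intro v
      have key : ∀ i : ℤ, c * ‖v (i : ZMod Q)‖ ≤ ‖F' Y v‖ := by
        apply h2 (fun i : ℤ => v (i : ZMod Q)) ⟨‖v‖, fun i => norm_le_pi_norm v _⟩
        intro i
        have e1 := norm_le_pi_norm (F' Y v) (i : ZMod Q)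
        rw [hF', hfp, hY] at e1
        simpa using e1
      have h4 : ‖v‖ ≤ ‖F' Y v‖ / c := by
        rw [pi_norm_le_iff_of_nonneg (by positivity)]
        intro k
        obtain ⟨i, rfl⟩ := hval k
        rw [le_div_iff₀ hc, mul_comm]
        exact key i
      rwa [le_div_iff₀ hc, mul_comm] at h4)
    hdiff
    (by
      intro x hx
      refine ContinuousLinearMap.opNorm_le_bound _ (by positivity) fun v => ?_
      rw [pi_norm_le_iff_of_nonneg (by positivity)]
      intro k
      have hxk : ‖x k - y (k.val : ℤ)‖ ≤ r := by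
        have := norm_le_pi_norm (x - Y) k
        rw [mem_closedBall, dist_eq_norm] at hx
        exact this.trans hx
      have hd := (h3 _ _ hxk).2
      have e1 : (F' x - F' Y) v k =
          -((fderiv ℝ (f (k.val : ℤ)) (x k) - fderiv ℝ (f (k.val : ℤ)) (y (k.val : ℤ))) (v k)) := by
        have : (F' x - F' Y) v k = F' x v k - F' Y v k := rfl
        rw [this, hF', hF', sub_apply]
        show _ - (_ - fderiv ℝ (f (k.val : ℤ)) (y (k.val : ℤ)) (v k)) = _
        abel
      rw [e1, norm_neg]
      refine (ContinuousLinearMap.le_opNorm _ _).trans ?_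
      gcongr
      exact norm_le_pi_norm v k)
    (by
      rw [pi_norm_le_iff_of_nonneg (by positivity)]
      intro k
      obtain ⟨i, rfl⟩ := hval k
      show ‖Y ((i : ZMod Q) + 1) - f (((i : ZMod Q).val : ℤ)) (Y (i : ZMod Q))‖ ≤ _
      have e1 : Y ((i : ZMod Q) + 1) = y (i + 1) := by
        have := hY (i + 1)
        rwa [Int.cast_add, Int.cast_one] at this
      rw [e1, hfp, hY]
      exact h1 i)
  refine ⟨fun i => x (i : ZMod Q), ?_, ?_, ?_⟩
  · intro i
    simp
  · intro i
    have e1 : F x (i : ZMod Q) = 0 := congrFun hFx _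
    have e2 : x ((i : ZMod Q) + 1) - f (((i : ZMod Q).val : ℤ)) (x (i : ZMod Q)) = 0 := e1
    rw [hfp, sub_eq_zero] at e2
    show x ((i + 1 : ℤ) : ZMod Q) = _
    rw [Int.cast_add, Int.cast_one]
    exact e2
  · intro i
    have := norm_le_pi_norm (x - Y) (i : ZMod Q)
    rw [mem_closedBall, dist_eq_norm] at hx
    have h5 := this.trans hx
    rw [Pi.sub_apply, hY] at h5
    exact h5

/-- uniform continuity of the derivative on a compact set -/
lemma unif {E : Type} [NormedAddCommGroup E] [NormedSpace ℝ E] {G : E → E} {K : Set E}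
    (hK : IsCompact K) (hG : ∀ y ∈ K, ContDiffAt ℝ 1 G y) {c : ℝ} (hc : 0 < c) :
    ∃ r : ℝ, 0 < r ∧ ∀ y ∈ K, ∀ x, ‖x - y‖ ≤ r → DifferentiableAt ℝ G x ∧
      ‖fderiv ℝ G x - fderiv ℝ G y‖ ≤ c / 2 := by
  have h1 : ∀ y : K, ∃ U : Set E, IsOpen U ∧ (y : E) ∈ U ∧ ∀ x ∈ U, DifferentiableAt ℝ G x ∧
      ‖fderiv ℝ G x - fderiv ℝ G (y : E)‖ < c / 4 := by
    rintro ⟨y, hy⟩
    have hd : ∀ᶠ x in 𝓝 y, DifferentiableAt ℝ G x := by
      filter_upwards [(hG y hy).eventually (by simp)] with x hx
      exact hx.differentiableAt (by simp)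
    have hcont : ContinuousAt (fderiv ℝ G) y :=
      ((hG y hy).fderiv_right (m := 0) (by simp)).continuousAt
    have hc' : ∀ᶠ x in 𝓝 y, ‖fderiv ℝ G x - fderiv ℝ G y‖ < c / 4 := by
      have := hcont (Metric.ball_mem_nhds (fderiv ℝ G y) (by positivity : 0 < c / 4))
      filter_upwards [this] with x hx
      rwa [← dist_eq_norm]
    obtain ⟨U, hU, hUo, hyU⟩ := _root_.eventually_nhds_iff.1 (hd.and hc')
    exact ⟨U, hUo, hyU, hU⟩
  choose U hUo hyU hU using h1
  obtain ⟨δ, hδ, hL⟩ := lebesgue_number_lemma_of_metric hK hUo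
    (fun y hy => mem_iUnion.2 ⟨⟨y, hy⟩, hyU ⟨y, hy⟩⟩)
  refine ⟨δ / 2, by positivity, fun y hy x hx => ?_⟩
  obtain ⟨z, hz⟩ := hL y hy
  have hx' : x ∈ U z := hz (by rw [mem_ball, dist_eq_norm]; linarith)
  have hy' : y ∈ U z := hz (mem_ball_self hδ)
  refine ⟨(hU z x hx').1, ?_⟩
  have e1 := (hU z x hx').2
  have e2 := (hU z y hy').2
  have e3 : fderiv ℝ G x - fderiv ℝ G y =
      (fderiv ℝ G x - fderiv ℝ G (z : E)) - (fderiv ℝ G y - fderiv ℝ G (z : E)) := by abel
  rw [e3]
  refine (norm_sub_le _ _).trans ?_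
  linarith

theorem main (hLB : S_LB) (hNW : S_NW) : S_HS := by
  intro E _ _ _ G Ψ ζ H ε hε
  set A : E →L[ℝ] E := fderiv ℝ G 0 with hA
  set B : ℤ → E →L[ℝ] E := fun i => if i = 0 then fderiv ℝ Ψ (ζ 0) else fderiv ℝ G (ζ i) with hB
  have hcontG : ContinuousAt (fderiv ℝ G) 0 := (H.dG0.fderiv_right (m := 0) (by simp)).continuousAt
  have hBt : Tendsto B atTop (𝓝 A) := by
    refine (hcontG.tendsto.comp H.top).congr' ?_
    filter_upwards [eventually_gt_atTop (0 : ℤ)] with i hi
    simp only [hB, if_neg hi.ne', Function.comp_apply]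
  have hBb : Tendsto B atBot (𝓝 A) := by
    refine (hcontG.tendsto.comp H.bot).congr' ?_
    filter_upwards [eventually_lt_atBot (0 : ℤ)] with i hi
    simp only [hB, if_neg hi.ne, Function.comp_apply]
  obtain ⟨c, hc, N₀, hN₀⟩ := hLB E B A hBt hBb H.hyp H.tr
  -- the compact set
  set ζ' : ℤ → E := fun i => if i = 0 then 0 else ζ i with hζ'
  have hζ'c : Tendsto ζ' cofinite (𝓝 0) := by
    rw [Int.cofinite_eq]
    refine Tendsto.sup ?_ ?_
    · refine H.bot.congr' ?_
      filter_upwards [eventually_lt_atBot (0 : ℤ)] with i hi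
      simp only [hζ', if_neg hi.ne]
    · refine H.top.congr' ?_
      filter_upwards [eventually_gt_atTop (0 : ℤ)] with i hi
      simp only [hζ', if_neg hi.ne']
  have hK := hζ'c.isCompact_insert_range_of_cofinite
  obtain ⟨r₁, hr₁, hU₁⟩ := unif (G := G) hK (by
    intro y hy
    rcases hy with rfl | ⟨i, rfl⟩
    · exact H.dG0
    · by_cases hi : i = 0
      · simp only [hζ', if_pos hi]; exact H.dG0
      · simp only [hζ', if_neg hi]; exact H.dG i hi) hc
  obtain ⟨r₂, hr₂, hU₂⟩ := unif (G := Ψ) (isCompact_singleton (x := ζ 0)) (by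
    intro y hy
    rw [mem_singleton_iff] at hy
    rw [hy]
    exact H.dΨ) hc
  set r := min ε (min r₁ r₂) with hr
  have hr0 : 0 < r := lt_min hε (lt_min hr₁ hr₂)
  have hrε : r ≤ ε := min_le_left _ _
  have hr1 : r ≤ r₁ := (min_le_right _ _).trans (min_le_left _ _)
  have hr2 : r ≤ r₂ := (min_le_right _ _).trans (min_le_right _ _)
  -- the choice of `N`
  have hN : ∃ N : ℕ, N₀ ≤ N ∧ 1 ≤ N ∧ ‖ζ (N + 1)‖ + ‖ζ (-N)‖ ≤ c / 2 * r := by
    have t1 : Tendsto (fun N : ℕ => ‖ζ ((N : ℤ) + 1)‖ + ‖ζ (-(N : ℤ))‖) atTop (𝓝 (0 + 0)) := by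
      have n1 : Tendsto (fun i : ℤ => ‖ζ i‖) atTop (𝓝 0) := by
        simpa using H.top.norm
      have n2 : Tendsto (fun i : ℤ => ‖ζ i‖) atBot (𝓝 0) := by
        simpa using H.bot.norm
      refine Tendsto.add ?_ ?_
      · exact n1.comp (tendsto_atTop_add_const_right _ _ tendsto_natCast_atTop_atTop)
      · exact n2.comp (tendsto_neg_atTop_atBot.comp tendsto_natCast_atTop_atTop)
    rw [add_zero] at t1
    have hpos : 0 < c / 2 * r := by positivity
    obtain ⟨N, hN1, hN2, hN3⟩ := ((t1.eventually_lt_const hpos).and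
      ((eventually_ge_atTop N₀).and (eventually_ge_atTop 1))).exists
    exact ⟨N, hN2, hN3, hN1.le⟩
  obtain ⟨N, hNN, hN1, hNζ⟩ := hN
  refine ⟨N, hN1, fun q σ hq hσ => ?_⟩
  set P : ℤ := 2 * (N : ℤ) + 1 with hP
  have hP0 : 0 < P := by omega
  set Q : ℕ := q * (2 * N + 1) with hQ
  have hQ0 : Q ≠ 0 := by positivity
  have : NeZero Q := ⟨hQ0⟩
  have hQP : (Q : ℤ) = (q : ℤ) * P := by rw [hQ, hP]; push_cast; ring
  set y : ℤ → E := fun i => if σ (i / P) = true then ζ (i % P - (N : ℤ)) else 0 with hy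
  set f : ℤ → E → E := fun i => if σ (i / P) = true ∧ i % P = (N : ℤ) then Ψ else G with hf
  have hdiv : ∀ i : ℤ, (i + Q) / P = i / P + q := by
    intro i
    rw [hQP, Int.add_mul_ediv_right _ _ hP0.ne']
  have hmod : ∀ i : ℤ, (i + Q) % P = i % P := by
    intro i
    rw [hQP, Int.add_mul_emod_self_right]
  have hyp : Function.Periodic y (Q : ℤ) := by
    intro i
    simp only [hy, hdiv, hmod, hσ]
  have hfp : Function.Periodic f (Q : ℤ) := by
    intro i
    simp only [hf, hdiv, hmod, hσ]
  -- derivatives along the pseudo-orbit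
  have hD1 : ∀ i, σ (i / P) ≠ true → fderiv ℝ (f i) (y i) = A := by
    intro i hi
    have e1 : f i = G := by simp only [hf]; rw [if_neg (fun h => hi h.1)]
    have e2 : y i = 0 := by simp only [hy]; rw [if_neg hi]
    rw [e1, e2]
  have hD2 : ∀ i, σ (i / P) = true → fderiv ℝ (f i) (y i) = B (i % P - N) := by
    intro i hi
    have e2 : y i = ζ (i % P - N) := by simp only [hy]; rw [if_pos hi]
    rw [e2]
    by_cases hm : i % P = N
    · have e1 : f i = Ψ := by simp only [hf]; rw [if_pos ⟨hi, hm⟩]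
      have e3 : i % P - N = 0 := by omega
      rw [e1, e3]
      simp only [hB, if_true]
    · have e1 : f i = G := by simp only [hf]; rw [if_neg (fun h => hm h.2)]
      have e3 : i % P - N ≠ 0 := by omega
      rw [e1]
      simp only [hB, if_neg e3]
  obtain ⟨x, hx1, hx2, hx3⟩ := shadow hNW hyp hfp hc hr0
    (by
      intro i
      have hm0 := Int.emod_nonneg i hP0.ne'
      have hm1 := Int.emod_lt_of_pos i hP0
      have hdm := Int.emod_add_mul_ediv i P
      by_cases hm : i % P = 2 * N
      · have e1 : (i + 1) / P = i / P + 1 := by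
          have : i + 1 = 0 + (i / P + 1) * P := by
            rw [hm] at hdm; rw [hP] at hdm ⊢; linear_combination -hdm
          rw [this, Int.add_mul_ediv_right _ _ hP0.ne']
          simp
        have e2 : (i + 1) % P = 0 := by
          have : i + 1 = 0 + (i / P + 1) * P := by
            rw [hm] at hdm; rw [hP] at hdm ⊢; linear_combination -hdm
          rw [this, Int.add_mul_emod_self_right]
          simp
        have e3 : f i = G := by
          simp only [hf]
          rw [if_neg (fun h => by have := h.2; omega)]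
        have e4 : ‖y (i + 1)‖ ≤ ‖ζ (-N)‖ := by
          simp only [hy]
          rw [e1, e2]
          split_ifs
          · rw [zero_sub]
          · rw [norm_zero]; exact norm_nonneg _
        have e5 : ‖f i (y i)‖ ≤ ‖ζ (N + 1)‖ := by
          rw [e3]
          simp only [hy]
          rw [hm]
          split_ifs
          · have : (2 * (N : ℤ) - N) = N := by ring
            rw [this, H.Gζ N (by omega)]
          · rw [H.G0, norm_zero]; exact norm_nonneg _
        refine (norm_sub_le _ _).trans ?_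
        linarith
      · have hlt : i % P + 1 < P := by omega
        have hsum : i + 1 = (i % P + 1) + (i / P) * P := by linear_combination -hdm
        have e1 : (i + 1) / P = i / P := by
          rw [hsum, Int.add_mul_ediv_right _ _ hP0.ne', Int.ediv_eq_zero_of_lt (by omega) hlt]
          have : (i % P + 1 + i / P * P) / P = i / P := by
            rw [Int.add_mul_ediv_right _ _ hP0.ne', Int.ediv_eq_zero_of_lt (by omega) hlt, zero_add]
          simp
        have e2 : (i + 1) % P = i % P + 1 := by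
          conv_lhs => rw [hsum]
          rw [Int.add_mul_emod_self_right, Int.emod_eq_of_lt (by omega) hlt]
        have e6 : y (i + 1) = f i (y i) := by
          simp only [hy, hf]
          rw [e1, e2]
          by_cases hs : σ (i / P) = true
          · rw [if_pos hs, if_pos hs]
            by_cases hmm : i % P = N
            · rw [if_pos ⟨hs, hmm⟩, hmm]
              have e7 : ((N : ℤ) + 1 - N) = 1 := by ring
              rw [e7, sub_self, H.Ψζ]
            · rw [if_neg (fun h => hmm h.2), H.Gζ _ (by omega)]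
              congr 1
              ring
          · rw [if_neg hs, if_neg hs, if_neg (fun h => hs h.1), H.G0]
        rw [e6, sub_self, norm_zero]
        positivity)
    (by
      refine hN₀ N hNN {s | σ (s / P) = true ∧ s % P = N} (fun i => fderiv ℝ (f i) (y i)) ?_ ?_
      · intro i hi
        apply hD1
        intro hs
        have hm0 := Int.emod_nonneg i hP0.ne'
        have hm1 := Int.emod_lt_of_pos i hP0
        have hdm := Int.emod_add_mul_ediv i P
        have h4 := hi ((N : ℤ) + i / P * P) ⟨?_, ?_⟩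
        · have h5 : i - ((N : ℤ) + i / P * P) = i % P - N := by linear_combination -hdm
          rw [h5] at h4
          have : |i % P - (N : ℤ)| ≤ N := by rw [abs_le]; constructor <;> omega
          omega
        · rw [Int.add_mul_ediv_right _ _ hP0.ne', Int.ediv_eq_zero_of_lt (by omega) (by omega),
            zero_add]
          exact hs
        · rw [Int.add_mul_emod_self_right, Int.emod_eq_of_lt (by omega) (by omega)]
      · rintro i s ⟨hs1, hs2⟩ his
        have hdm := Int.emod_add_mul_ediv s P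
        rw [hs2] at hdm
        rw [abs_le] at his
        have hsum : i = (i - s + N) + (s / P) * P := by linear_combination -hdm
        have e1 : i / P = s / P := by
          rw [hsum, Int.add_mul_ediv_right _ _ hP0.ne',
            Int.ediv_eq_zero_of_lt (by omega) (by omega), zero_add]
        have e2 : i % P = i - s + N := by
          conv_lhs => rw [hsum]
          rw [Int.add_mul_emod_self_right, Int.emod_eq_of_lt (by omega) (by omega)]
        show fderiv ℝ (f i) (y i) = _
        rw [hD2 i (by rw [e1]; exact hs1), e2]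
        congr 1
        ring)
    (by
      intro i x hx
      by_cases hs : σ (i / P) = true
      · by_cases hm : i % P = N
        · have e1 : f i = Ψ := by simp only [hf]; rw [if_pos ⟨hs, hm⟩]
          have e2 : y i = ζ 0 := by simp only [hy]; rw [if_pos hs, hm, sub_self]
          have e3 := hU₂ (ζ 0) rfl x (by rw [← e2]; exact hx.trans hr2)
          rw [e1, e2]
          exact e3
        · have e1 : f i = G := by simp only [hf]; rw [if_neg (fun h => hm h.2)]
          have e2 : y i = ζ (i % P - N) := by simp only [hy]; rw [if_pos hs]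
          rw [e1]
          refine hU₁ _ ?_ x (hx.trans hr1)
          right
          refine ⟨i % P - N, ?_⟩
          simp only [hζ']
          rw [if_neg (by omega), e2]
      · have e1 : f i = G := by simp only [hf]; rw [if_neg (fun h => hs h.1)]
        have e2 : y i = 0 := by simp only [hy]; rw [if_neg hs]
        rw [e1]
        refine hU₁ _ ?_ x (hx.trans hr1)
        left
        exact e2)
  refine ⟨x, ?_, hx2, fun i => (hx3 i).trans hrε⟩
  intro i
  rw [← hQP]
  exact hx1 i

end Pool.Agent.Y614.CO.HS
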